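import Pool.Agent.TH550.BP.Core
import Pool.Agent.TH885.NW.Final
import Pool.Agent.TH885.NW.Exp2
import Pool.Agent.TH648.SH.Smooth2
import Pool.Agent.TH641.EN.Fin
import Pool.Agent.TH2.NU.Final
import Pool.Agent.TH105.NU.All

/-! The degrees in which the dimension is the expected one. -/

set_option autoImplicit false

namespace Pool.Agent.TH550.BP

open MvPolynomial Pool.Agent.H932R3

/-- A source of expected dimensions. -/
def Src {n : ℕ} (w : Fin n → ℕ) (C : ℕ → Prop) : Prop :=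
  ∃ F : MvPolynomial (Fin n × Fin 2) ℂ, F ≠ 0 ∧ ∀ P : Fin n → Fin 2 → ℂ,
    eval (fun ij : Fin n × Fin 2 => P ij.1 ij.2) F ≠ 0 → ∀ d, C d → ExpDim ℂ w P d

theorem Src.or {n : ℕ} {w : Fin n → ℕ} {C D : ℕ → Prop} (h1 : Src w C) (h2 : Src w D) :
    Src w fun d => C d ∨ D d := by
  obtain ⟨F, hF, hF'⟩ := h1
  obtain ⟨G, hG, hG'⟩ := h2
  refine ⟨F * G, mul_ne_zero hF hG, fun P hP d hd => ?_⟩
  rw [map_mul] at hP
  rcases hd with hd | hd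
  · exact hF' P (left_ne_zero_of_mul hP) d hd
  · exact hG' P (right_ne_zero_of_mul hP) d hd

theorem Src.cond {n : ℕ} {w : Fin n → ℕ} {p : Prop} {C : ℕ → Prop} (h : p → Src w C) :
    Src w fun d => p ∧ C d := by
  by_cases hp : p
  · obtain ⟨F, hF, hF'⟩ := h hp
    exact ⟨F, hF, fun P hP d hd => hF' P hP d hd.2⟩
  · exact ⟨1, one_ne_zero, fun P hP d hd => absurd hd.1 hp⟩

theorem Src.ofQ {n : ℕ} {w : Fin n → ℕ} {C : ℕ → Prop}
    (h : ∃ F : MvPolynomial (Fin n × Fin 2) ℚ, F ≠ 0 ∧ ∀ P : Fin n → Fin 2 → ℂ,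
      aeval (fun ij : Fin n × Fin 2 => P ij.1 ij.2) F ≠ 0 → ∀ d, C d → ExpDim ℂ w P d) :
    Src w C := by
  obtain ⟨F, hF, hF'⟩ := h
  refine ⟨F.map (algebraMap ℚ ℂ), map_ne_zero_of hF, fun P hP d hd => ?_⟩
  rw [eval_map] at hP
  exact hF' P hP d hd

/-- the ranges for `n ≥ 10` -/
def RangeA (n : ℕ) (w : Fin n → ℕ) (d : ℕ) : Prop :=
  Real.sqrt n * d < ∑ i, (w i : ℝ) ∨
  ((n : ℝ) * (n / 2 - 11 / 6 * Real.sqrt n + 2) ≤ ∑ i, (w i : ℝ) ∧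
    Real.sqrt n * (d + 11 / 6) + 9 / 8 < (∑ i, (w i : ℝ)) + n / 2) ∨
  ∃ b : ℕ, (∀ i, w i ≤ b + 1) ∧
    ((n : ℝ) + ∑ i, ((max (w i) b : ℕ) : ℝ) < Real.sqrt n * (d + 3) ∨
      (∑ i, ((max (w i) b : ℕ) : ℝ)) + n / 2 + Real.sqrt n / 3 + 1 / 8 <
        Real.sqrt n * (d + 3 / 2))

/-- the range for all `n` -/
def RangeB (n : ℕ) (w : Fin n → ℕ) (d : ℕ) : Prop :=
  ∃ (r : ℝ) (M : ℕ), 3 ≤ r ∧ (∀ i, w i ≤ M) ∧ ∑ i, (w i : ℝ) + r ^ 2 < r * (d + 3) ∧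
    ((Finset.univ.filter fun i => w i = M).card : ℝ) + r ^ 2 * M < r * (d + 3)

theorem srcA {n : ℕ} (hn : 10 ≤ n) (w : Fin n → ℕ) : Src w (RangeA n w) := by
  obtain ⟨F, hF, hF'⟩ := Pool.Agent.TH885.NW.exp_cut2 hn w
  refine Src.ofQ ⟨F, hF, fun P hP d hd => hF' P hP d ?_⟩
  rcases hd with hd | ⟨hd1, hd2⟩ | hd
  · exact Or.inl hd
  · exact Or.inr (Or.inl ⟨Pool.Agent.TH885.NW.exists_k hn hd1, hd2⟩)
  · exact Or.inr (Or.inr hd)

theorem srcB {n : ℕ} (w : Fin n → ℕ) : Src w (RangeB n w) := by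
  obtain ⟨F, hF, hF'⟩ := Pool.Agent.TH648.SH.smooth_all w
  refine ⟨F, hF, fun P hP d hd => ?_⟩
  obtain ⟨r, M, h1, h2, h3, h4⟩ := hd
  have h := (hF' P hP).2.1 d (Pool.Agent.TH648.SH.below_of_max h1 h2 h3 h4)
  have e : Module.finrank ℂ ↥(Pool.Agent.H248R5.forms w P d) =
      Nat.choose (d + 2) 2 - ∑ i, Nat.choose (w i + 1) 2 := by omega
  exact e

/-- uniform, `n ≥ 37` -/
def ExactU (n : ℕ) (w : Fin n → ℕ) : Prop := 37 ≤ n ∧ ∃ m, 1 ≤ m ∧ ∀ i, w i = m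

/-- near-uniform -/
def ExactN (N0 n : ℕ) (w : Fin n → ℕ) : Prop :=
  (N0 ≤ n ∨ (144 ≤ n ∧ 4 ∣ n)) ∧ ∃ m, 1 ≤ m ∧ ∀ i, w i = m ∨ w i = m + 1

theorem srcU {n : ℕ} {w : Fin n → ℕ} (h : ExactU n w) : Src w fun _ => True := by
  obtain ⟨hn, m, hm, hw⟩ := h
  obtain rfl : w = fun _ => m := funext hw
  obtain ⟨F, hF, hF'⟩ := Pool.Agent.TH641.EN.exp37 (L := ℂ) hn hm
  exact Src.ofQ ⟨F, hF, fun P hP d _ => hF' P hP d⟩

theorem srcN : ∃ N0 : ℕ, ∀ {n : ℕ} {w : Fin n → ℕ}, ExactN N0 n w → Src w fun _ => True := by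
  obtain ⟨N0, h0⟩ := Pool.Agent.TH105.NU.expDim_near
  refine ⟨N0, fun {n w} h => ?_⟩
  obtain ⟨h1 | ⟨h1, N, rfl⟩, m, hm, hw⟩ := h
  · obtain ⟨F, hF, hF'⟩ := h0 n h1 m hm w hw (L := ℂ)
    exact Src.ofQ ⟨F, hF, fun P hP d _ => hF' P hP d⟩
  · obtain ⟨F, hF, hF'⟩ := Pool.Agent.TH2.NU.near4 (L := ℂ) (by omega) hm hw
    exact Src.ofQ ⟨F, hF, fun P hP d _ => hF' P hP d⟩

/-- the degrees in which the expected dimension is known -/
def Known (N0 n : ℕ) (w : Fin n → ℕ) (d : ℕ) : Prop :=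
  (10 ≤ n ∧ RangeA n w d) ∨ RangeB n w d ∨ ExactU n w ∨ ExactN N0 n w

theorem known : ∃ N0 : ℕ, ∀ (n : ℕ) (w : Fin n → ℕ), Src w (Known N0 n w) := by
  obtain ⟨N0, hN⟩ := srcN
  refine ⟨N0, fun n w => ?_⟩
  have h := (Src.cond (p := 10 ≤ n) fun hn => srcA hn w).or
    ((srcB w).or ((Src.cond (p := ExactU n w) srcU).or (Src.cond (p := ExactN N0 n w) hN)))
  obtain ⟨F, hF, hF'⟩ := h
  refine ⟨F, hF, fun P hP d hd => hF' P hP d ?_⟩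
  rcases hd with hd | hd | hd | hd
  · exact Or.inl hd
  · exact Or.inr (Or.inl hd)
  · exact Or.inr (Or.inr (Or.inl ⟨hd, trivial⟩))
  · exact Or.inr (Or.inr (Or.inr ⟨hd, trivial⟩))

/-- The main statement. -/
theorem main : ∃ N0 : ℕ, ∀ (n : ℕ) (w : Fin n → ℕ),
    ∃ F : MvPolynomial (Fin n × Fin 2) ℂ, F ≠ 0 ∧ ∀ P : Fin n → Fin 2 → ℂ,
      eval (fun ij : Fin n × Fin 2 => P ij.1 ij.2) F ≠ 0 →
      (∀ d, Known N0 n w d → (d + 2).choose 2 ≤ ∑ i, (w i + 1).choose 2 + 1 →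
        Module.finrank ℂ ↥(Pool.Agent.H248R5.forms w P d) ≤ 1) ∧
      (∀ d, Known N0 n w d → ∑ i, (w i + 1).choose 2 ≤ (d + 2).choose 2 → Free w P (d + 1)) ∧
      (∀ d i, Known N0 n (Function.update w i (w i + 1)) d →
        ∑ j, (w j + 1).choose 2 + (w i + 1) ≤ (d + 2).choose 2 →
        ∀ h : MvPolynomial (Fin 2) ℂ, h.IsHomogeneous (w i) →
          ∃ G ∈ Pool.Agent.H248R5.forms w P d,
            homogeneousComponent (w i) (Pool.Agent.H248R5.tau (P i) G) = h) := by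
  classical
  obtain ⟨N0, hK⟩ := known
  refine ⟨N0, fun n w => ?_⟩
  obtain ⟨F, hF, hF'⟩ := hK n w
  choose G hG hG' using fun i : Fin n => hK n (Function.update w i (w i + 1))
  refine ⟨F * (∏ i, G i) * Pool.Agent.H248R5.disc ℂ n,
    mul_ne_zero (mul_ne_zero hF (Finset.prod_ne_zero_iff.2 fun i _ => hG i))
      (Pool.Agent.H248R5.disc_ne ℂ n), fun P hP => ?_⟩
  rw [map_mul, map_mul, map_prod] at hP
  have hinj := Pool.Agent.H248R5.inj_of_disc (right_ne_zero_of_mul hP)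
  have hP1 := left_ne_zero_of_mul (left_ne_zero_of_mul hP)
  have hP2 := right_ne_zero_of_mul (left_ne_zero_of_mul hP)
  rw [Finset.prod_ne_zero_iff] at hP2
  refine ⟨fun d hd hN => ?_, fun d hd hN => ?_, fun d i hd hN h hh => ?_⟩
  · have h1 : Module.finrank ℂ ↥(Pool.Agent.H248R5.forms w P d) =
        Nat.choose (d + 2) 2 - ∑ i, Nat.choose (w i + 1) 2 := hF' P hP1 d hd
    omega
  · have h1 : Module.finrank ℂ ↥(Pool.Agent.H248R5.forms w P d) =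
        Nat.choose (d + 2) 2 - ∑ i, Nat.choose (w i + 1) 2 := hF' P hP1 d hd
    exact free_of hinj (by omega)
  · have h1 : Module.finrank ℂ ↥(Pool.Agent.H248R5.forms (Function.update w i (w i + 1)) P d) =
        Nat.choose (d + 2) 2 - ∑ j, Nat.choose (Function.update w i (w i + 1) j + 1) 2 :=
      hG' i P (hP2 i (Finset.mem_univ i)) d hd
    have h2 := sum_upd w i
    exact rho_surj i (by omega) hh

end Pool.Agent.TH550.BP
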