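import Mathlib

/-! Binomial inequalities for equal multiplicities. -/

set_option autoImplicit false

namespace Pool.Agent.TH550.BP

theorem two_choose' (k : ℕ) : 2 * (k + 1).choose 2 = (k + 1) * k := by
  have h := Nat.triangle_succ k
  rw [Nat.choose_two_right, Nat.add_sub_cancel]
  have h2 : 2 ∣ (k + 1) * k := by
    rw [mul_comm]
    exact (Nat.even_mul_succ_self k).two_dvd
  exact Nat.mul_div_cancel' h2

theorem num_low {n m d : ℕ} (hn : 10 ≤ n) (h : (d : ℝ) < Real.sqrt n * m) :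
    (d + 2).choose 2 ≤ n * (m + 1).choose 2 + 1 := by
  have h1 := two_choose' (d + 1)
  have h2 := two_choose' m
  have hs : 3 ≤ Real.sqrt n := Real.le_sqrt_of_sq_le (by
    have : (10 : ℝ) ≤ n := by exact_mod_cast hn
    linarith)
  have hs2 : Real.sqrt n ^ 2 = n := Real.sq_sqrt (Nat.cast_nonneg n)
  have h3 : (((d + 1 + 1) * (d + 1) : ℕ) : ℝ) ≤ ((n * ((m + 1) * m) + 2 : ℕ) : ℝ) := by
    push_cast
    have hd : (0 : ℝ) ≤ d := Nat.cast_nonneg d
    have hm : (0 : ℝ) ≤ m := Nat.cast_nonneg m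
    have h4 : (d : ℝ) ^ 2 ≤ (Real.sqrt n * m) ^ 2 := by gcongr
    have h5 : 3 * (d : ℝ) ≤ Real.sqrt n * (Real.sqrt n * m) := by
      have : (0 : ℝ) ≤ Real.sqrt n * m := by positivity
      nlinarith
    have h6 : (Real.sqrt n * m) ^ 2 = n * m ^ 2 := by rw [mul_pow, hs2]
    have h7 : Real.sqrt n * (Real.sqrt n * m) = n * m := by rw [← mul_assoc, ← sq, hs2]
    nlinarith
  have h8 : (d + 1 + 1) * (d + 1) ≤ n * ((m + 1) * m) + 2 := by exact_mod_cast h3
  have h9 : (d + 2).choose 2 = (d + 1 + 1).choose 2 := rfl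
  have h10 : 2 * (n * (m + 1).choose 2) = n * (2 * (m + 1).choose 2) := by ring
  rw [h9]
  rw [h2] at h10
  omega

theorem num_high {n m e : ℕ} (hn : 10 ≤ n) (h : Real.sqrt n * (m + 1) < e + 3) :
    n * (m + 1).choose 2 ≤ (e + 2).choose 2 := by
  have h1 := two_choose' (e + 1)
  have h2 := two_choose' m
  have hs : 3 ≤ Real.sqrt n := Real.le_sqrt_of_sq_le (by
    have : (10 : ℝ) ≤ n := by exact_mod_cast hn
    linarith)
  have hs2 : Real.sqrt n ^ 2 = n := Real.sq_sqrt (Nat.cast_nonneg n)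
  have h3 : ((n * ((m + 1) * m) : ℕ) : ℝ) ≤ (((e + 1 + 1) * (e + 1) : ℕ) : ℝ) := by
    push_cast
    have hm : (0 : ℝ) ≤ m := Nat.cast_nonneg m
    have he : (0 : ℝ) ≤ e := Nat.cast_nonneg e
    generalize Real.sqrt n = s at h hs hs2
    obtain ⟨t, ht⟩ : ∃ t, t = s * ((m : ℝ) + 1) := ⟨_, rfl⟩
    rw [← ht] at h
    have ht3 : 3 ≤ t := by rw [ht]; nlinarith
    have h4 : (t - 1) * (t - 2) ≤ ((e : ℝ) + 1 + 1) * (e + 1) := by nlinarith
    have h5 : t * t = n * (((m : ℝ) + 1) * (m + 1)) := by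
      rw [ht, ← hs2]; ring
    have h6 : 3 * t ≤ n * ((m : ℝ) + 1) := by
      rw [ht, ← hs2]
      have : 0 ≤ s * ((m : ℝ) + 1) := by positivity
      nlinarith
    nlinarith
  have h8 : n * ((m + 1) * m) ≤ (e + 1 + 1) * (e + 1) := by exact_mod_cast h3
  have h9 : (e + 2).choose 2 = (e + 1 + 1).choose 2 := rfl
  have h10 : 2 * (n * (m + 1).choose 2) = n * (2 * (m + 1).choose 2) := by ring
  rw [h9]
  rw [h2] at h10
  omega

end Pool.Agent.TH550.BP
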