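import Pool.Agent.H248R5.Gen
import Pool.Agent.H932R3.Finals

/-! Base point freeness and maximal rank from independence of conditions. -/

set_option autoImplicit false

namespace Pool.Agent.TH550.BP

open MvPolynomial Pool.Agent.H248R5

variable {n : ℕ}

/-- `|d H - ∑ w i E i|` has no base point on the blow-up. -/
def Free (w : Fin n → ℕ) (P : Fin n → Fin 2 → ℂ) (d : ℕ) : Prop :=
  (∀ Q : Fin 3 → ℂ, Q ≠ 0 → (∀ i, ¬ ∃ c : ℂ, Q = c • (![P i 0, P i 1, 1] : Fin 3 → ℂ)) →
      ∃ G ∈ forms w P d, eval Q G ≠ 0) ∧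
    ∀ i, ∀ v : Fin 2 → ℂ, v ≠ 0 → ∃ G ∈ forms w P d,
      eval v (homogeneousComponent (w i) (tau (P i) G)) ≠ 0

theorem free_of {w : Fin n → ℕ} {P : Fin n → Fin 2 → ℂ} (hP : Function.Injective P) {e : ℕ}
    (h : Module.finrank ℂ ↥(forms w P e) + ∑ i, (w i + 1).choose 2 ≤ (e + 2).choose 2) :
    Free w P (e + 1) := by
  have hS := surj_of_ind h
  refine ⟨fun Q hQ hQ' => bpf hS Q hQ fun i _ => hQ' i, fun i v hv => ?_⟩
  rcases Nat.eq_zero_or_pos (w i) with h0 | h0
  · obtain ⟨G, hG, hG'⟩ := bpf hS (![P i 0, P i 1, 1] : Fin 3 → ℂ)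
      (fun h => by simpa using congrFun h 2) (fun j hj ⟨c, hc⟩ => by
        have hc2 : c = 1 := by
          have := congrFun hc 2
          simpa using this.symm
        subst hc2
        rw [one_smul] at hc
        have hij : P i = P j := by
          funext a
          fin_cases a
          · simpa using congrFun hc 0
          · simpa using congrFun hc 1
        have := hP hij
        subst this
        omega)
    refine ⟨G, hG, ?_⟩
    rw [h0, homogeneousComponent_zero, eval_C]
    have := constCoeff_tau (P i) G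
    change coeff 0 (tau (P i) G) = _ at this
    rw [this]
    exact hG'
  · obtain ⟨a, ha⟩ : ∃ a, v a ≠ 0 := by
      by_contra hcon
      push Not at hcon
      exact hv (funext hcon)
    obtain ⟨G, hG, hG'⟩ := lead hS i h0 a
    refine ⟨G, hG, ?_⟩
    rw [hG', map_pow, eval_X]
    exact pow_ne_zero _ ha

theorem rho_aux {w w' : Fin n → ℕ} {P : Fin n → Fin 2 → ℂ} {d : ℕ} (i : Fin n)
    (hi : w' i = w i + 1) (hij : ∀ j, j ≠ i → w' j = w j)
    (hd : Module.finrank ℂ ↥(forms w' P d) + ∑ j, (w' j + 1).choose 2 ≤ (d + 2).choose 2)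
    {h : MvPolynomial (Fin 2) ℂ} (hh : h.IsHomogeneous (w i)) :
    ∃ G ∈ forms w P d, homogeneousComponent (w i) (tau (P i) G) = h := by
  classical
  have hS := surj_of_ind hd
  obtain ⟨⟨H, hH⟩, hHy⟩ := hS (Function.update (0 : ∀ j, Quo ℂ (w' j)) i (Ideal.Quotient.mk _ h))
  have h1 : tau (P i) H - h ∈ (idealOfVars (Fin 2) ℂ) ^ (w i + 1) := by
    have h2 := congrFun hHy i
    rw [ev_apply, Function.update_self] at h2
    have h3 := Ideal.Quotient.eq.1 h2
    rwa [hi] at h3
  have hhm : h ∈ (idealOfVars (Fin 2) ℂ) ^ (w i) := by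
    rw [mem_pow_idealOfVars_iff']
    intro s hs
    exact hh.coeff_eq_zero (by omega)
  refine ⟨H, mem_forms.2 ⟨hH, fun j => ?_⟩, ?_⟩
  · by_cases hj : j = i
    · subst hj
      have h4 : tau (P j) H = h + (tau (P j) H - h) := by ring
      rw [h4]
      exact Ideal.add_mem _ hhm (Ideal.pow_le_pow_right (Nat.le_succ _) h1)
    · have h2 := congrFun hHy j
      rw [ev_apply, Function.update_of_ne hj] at h2
      have h3 := Ideal.Quotient.eq_zero_iff_mem.1 h2
      rwa [hij j hj] at h3
  · have h4 : tau (P i) H = h + (tau (P i) H - h) := by ring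
    rw [h4, map_add, homogeneousComponent_of_mem hh, if_pos rfl]
    have h7 : homogeneousComponent (w i) (tau (P i) H - h) = 0 := by
      ext s
      rw [coeff_homogeneousComponent, coeff_zero]
      split_ifs with hs
      · exact (mem_pow_idealOfVars_iff' _ _).1 h1 s (by omega)
      · rfl
    rw [h7, add_zero]

theorem rho_surj {w : Fin n → ℕ} {P : Fin n → Fin 2 → ℂ} {d : ℕ} (i : Fin n)
    (hd : Module.finrank ℂ ↥(forms (Function.update w i (w i + 1)) P d) +
      ∑ j, (Function.update w i (w i + 1) j + 1).choose 2 ≤ (d + 2).choose 2)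
    {h : MvPolynomial (Fin 2) ℂ} (hh : h.IsHomogeneous (w i)) :
    ∃ G ∈ forms w P d, homogeneousComponent (w i) (tau (P i) G) = h :=
  rho_aux i (Function.update_self _ _ _) (fun _ hj => Function.update_of_ne hj _ _) hd hh

theorem sum_upd (w : Fin n → ℕ) (i : Fin n) :
    ∑ j, (Function.update w i (w i + 1) j + 1).choose 2 =
      ∑ j, (w j + 1).choose 2 + (w i + 1) := by
  classical
  have h1 : ∀ j, (Function.update w i (w i + 1) j + 1).choose 2 =
      (w j + 1).choose 2 + if j = i then w i + 1 else 0 := by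
    intro j
    by_cases hj : j = i
    · subst hj
      rw [Function.update_self, if_pos rfl]
      have := Nat.choose_succ_succ' (w j + 1) 1
      rw [Nat.choose_one_right] at this
      have h2 : (w j + 1 + 1).choose 2 = (w j + 1 + 1).choose (1 + 1) := rfl
      have h3 : (w j + 1).choose 2 = (w j + 1).choose (1 + 1) := rfl
      omega
    · rw [Function.update_of_ne hj, if_neg hj, add_zero]
  rw [Finset.sum_congr rfl fun j _ => h1 j, Finset.sum_add_distrib, Finset.sum_ite_eq' ]
  simp

end Pool.Agent.TH550.BP
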